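import Pool.Agent.Helper22.G4.GenFam

/-! # G4-G5 (the simplices at the flats) -/

namespace Pool.Agent.Helper96.G4

open Pool.Agent.Helper22.G4 Submodule

section lists

variable {α : Type}

lemma length_cycPairs (l : List α) : (cycPairs l).length = l.length := by
  unfold cycPairs
  cases l with
  | nil => simp
  | cons a l => simp

lemma getElem_cycPairs (l : List α) (i : ℕ) (hi : i < (cycPairs l).length) :
    (cycPairs l)[i] = (l[i]'(by rw [length_cycPairs] at hi; exact hi),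
      l[(i + 1) % l.length]'(by
        rw [length_cycPairs] at hi; exact Nat.mod_lt _ (by omega))) := by
  have hi' : i < l.length := by rw [length_cycPairs] at hi; exact hi
  have hi2 : i < (l.zip (l.tail ++ l.take 1)).length := hi
  have e0 : (l.zip (l.tail ++ l.take 1))[i]'hi2 = (l[i]'hi', l[(i + 1) % l.length]'(by
        exact Nat.mod_lt _ (by omega))) := ?_
  · exact e0
  rw [List.getElem_zip]
  congr 1
  by_cases h : i + 1 < l.length
  · rw [List.getElem_append_left (by simp; omega)]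
    simp [Nat.mod_eq_of_lt h]
  · have h2 : i + 1 = l.length := by omega
    rw [List.getElem_append_right (by simp; omega)]
    simp [h2]
    congr 1
    omega

lemma mem_cycPairs_iff (l : List α) (e : α × α) :
    e ∈ cycPairs l ↔ ∃ (i : ℕ) (hi : i < l.length),
      e = (l[i], l[(i + 1) % l.length]'(Nat.mod_lt _ (by omega))) := by
  rw [List.mem_iff_getElem]
  constructor
  · rintro ⟨i, hi, rfl⟩
    refine ⟨i, by rw [length_cycPairs] at hi; exact hi, ?_⟩
    rw [getElem_cycPairs]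
  · rintro ⟨i, hi, rfl⟩
    refine ⟨i, by rw [length_cycPairs]; exact hi, ?_⟩
    rw [getElem_cycPairs]

lemma mem_drop_cycPairs_iff (l : List α) (e : α × α) :
    e ∈ (cycPairs l).drop 1 ↔ ∃ (i : ℕ) (hi : i < l.length), 1 ≤ i ∧
      e = (l[i], l[(i + 1) % l.length]'(Nat.mod_lt _ (by omega))) := by
  rw [List.mem_iff_getElem]
  constructor
  · rintro ⟨i, hi, rfl⟩
    rw [List.length_drop, length_cycPairs] at hi
    refine ⟨1 + i, by omega, by omega, ?_⟩
    rw [List.getElem_drop, getElem_cycPairs]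
  · rintro ⟨i, hi, h1, rfl⟩
    refine ⟨i - 1, by rw [List.length_drop, length_cycPairs]; omega, ?_⟩
    rw [List.getElem_drop, getElem_cycPairs]
    simp only [show 1 + (i - 1) = i by omega]

/-- consecutive, in either order -/
def Cons (l : List α) (a b : α) : Prop := (a, b) ∈ cycPairs l ∨ (b, a) ∈ cycPairs l

lemma cons_symm {l : List α} {a b : α} (h : Cons l a b) : Cons l b a := h.symm

lemma getElem_inj' {l : List α} (hl : l.Nodup) {i j : ℕ} (hi : i < l.length) (hj : j < l.length)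
    (h : l[i] = l[j]) : i = j := (List.Nodup.getElem_inj_iff hl).1 h

/-- consecutive elements in terms of positions -/
lemma cons_pos {l : List α} (hl : l.Nodup) {i j : ℕ} (hi : i < l.length) (hj : j < l.length)
    (h : Cons l l[i] l[j]) : j = (i + 1) % l.length ∨ i = (j + 1) % l.length := by
  rcases h with h | h
  · rw [mem_cycPairs_iff] at h
    obtain ⟨k, hk, he⟩ := h
    rw [Prod.mk.injEq] at he
    have e1 := getElem_inj' hl hi hk he.1
    have e2 := getElem_inj' hl hj _ he.2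
    subst e1
    exact Or.inl e2
  · rw [mem_cycPairs_iff] at h
    obtain ⟨k, hk, he⟩ := h
    rw [Prod.mk.injEq] at he
    have e1 := getElem_inj' hl hj hk he.1
    have e2 := getElem_inj' hl hi _ he.2
    subst e1
    exact Or.inr e2

lemma mod_succ {n i : ℕ} (hi : i < n) : (i + 1 < n ∧ (i + 1) % n = i + 1) ∨
    (i + 1 = n ∧ (i + 1) % n = 0) := by
  by_cases h : i + 1 < n
  · exact Or.inl ⟨h, Nat.mod_eq_of_lt h⟩
  · have h2 : i + 1 = n := by omega
    exact Or.inr ⟨h2, by rw [h2, Nat.mod_self]⟩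

/-- no triangles -/
lemma no_triangle {l : List α} (hl : l.Nodup) (h4 : 4 ≤ l.length) {a b c : α} (ha : a ∈ l)
    (hb : b ∈ l) (hc : c ∈ l) (hac : a ≠ c) (hbc : b ≠ c) (hab' : a ≠ b)
    (hab : Cons l a b) (hac' : Cons l a c) (hbc' : Cons l b c) : False := by
  obtain ⟨i, hi, rfl⟩ := List.mem_iff_getElem.1 ha
  obtain ⟨j, hj, rfl⟩ := List.mem_iff_getElem.1 hb
  obtain ⟨k, hk, rfl⟩ := List.mem_iff_getElem.1 hc
  have h1 := cons_pos hl hi hj hab
  have h2 := cons_pos hl hi hk hac'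
  have h3 := cons_pos hl hj hk hbc'
  have n1 : i ≠ j := fun h => hab' (by subst h; rfl)
  have n2 : i ≠ k := fun h => hac (by subst h; rfl)
  have n3 : j ≠ k := fun h => hbc (by subst h; rfl)
  rcases mod_succ hi with ⟨_, e1⟩ | ⟨_, e1⟩ <;> rcases mod_succ hj with ⟨_, e2⟩ | ⟨_, e2⟩ <;>
  rcases mod_succ hk with ⟨_, e3⟩ | ⟨_, e3⟩ <;> rw [e1] at h1 h2 <;> rw [e2] at h1 h3 <;>
  rw [e3] at h2 h3 <;> omega

lemma pair_props {l : List α} (hl : l.Nodup) (h4 : 4 ≤ l.length) {e : α × α}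
    (he : e ∈ cycPairs l) : e.1 ∈ l ∧ e.2 ∈ l ∧ e.1 ≠ e.2 ∧ ∃ t ∈ l, t ≠ e.1 ∧ t ≠ e.2 := by
  rw [mem_cycPairs_iff] at he
  obtain ⟨i, hi, rfl⟩ := he
  have hm := mod_succ hi
  have hne : i ≠ (i + 1) % l.length := by
    rcases hm with ⟨_, e1⟩ | ⟨_, e1⟩ <;> omega
  refine ⟨List.getElem_mem _, List.getElem_mem _, fun h => hne (getElem_inj' hl hi _ h), ?_⟩
  obtain ⟨k, hk, hk1, hk2⟩ : ∃ k, k < l.length ∧ k ≠ i ∧ k ≠ (i + 1) % l.length := by
    by_cases h0 : 0 ≠ i ∧ 0 ≠ (i + 1) % l.length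
    · exact ⟨0, by omega, h0.1, h0.2⟩
    · by_cases h1 : 1 ≠ i ∧ 1 ≠ (i + 1) % l.length
      · exact ⟨1, by omega, h1.1, h1.2⟩
      · refine ⟨2, by omega, ?_, ?_⟩
        · rcases hm with ⟨_, e1⟩ | ⟨_, e1⟩ <;> omega
        · rcases hm with ⟨_, e1⟩ | ⟨_, e1⟩ <;> omega
  exact ⟨l[k], List.getElem_mem _, fun h => hk1 (getElem_inj' hl hk hi h),
    fun h => hk2 (getElem_inj' hl hk _ h)⟩

lemma take_two {l : List α} (h4 : 4 ≤ l.length) : l.take 2 = [l[0], l[1]] := by
  match l, h4 with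
  | a :: b :: c :: d :: l', _ => simp

lemma drop_not_special {l : List α} (hl : l.Nodup) (h4 : 4 ≤ l.length) {e : α × α}
    (he : e ∈ (cycPairs l).drop 1) : ¬ (∀ c ∈ l.take 2, c = e.1 ∨ c = e.2) := by
  intro h
  rw [mem_drop_cycPairs_iff] at he
  obtain ⟨i, hi, h1, rfl⟩ := he
  rw [take_two h4] at h
  have a0 := h l[0] (by simp)
  have a1 := h l[1] (by simp)
  have b0 : 0 = i ∨ 0 = (i + 1) % l.length := by
    rcases a0 with a | a
    · exact Or.inl (getElem_inj' hl _ _ a)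
    · exact Or.inr (getElem_inj' hl _ _ a)
  have b1 : 1 = i ∨ 1 = (i + 1) % l.length := by
    rcases a1 with a | a
    · exact Or.inl (getElem_inj' hl _ _ a)
    · exact Or.inr (getElem_inj' hl _ _ a)
  rcases mod_succ hi with ⟨_, e1⟩ | ⟨_, e1⟩ <;> omega

lemma first_pair {l : List α} (h4 : 4 ≤ l.length) : (cycPairs l).take 1 = [(l[0], l[1])] := by
  match l, h4 with
  | a :: b :: c :: d :: l', _ => simp [cycPairs]

lemma first_mem {l : List α} (h4 : 4 ≤ l.length) : (l[0], l[1]) ∈ cycPairs l := by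
  rw [mem_cycPairs_iff]
  refine ⟨0, by omega, ?_⟩
  simp [Nat.mod_eq_of_lt (show 1 < l.length by omega)]

lemma exists_before {l : List α} (hl : l.Nodup) (h4 : 4 ≤ l.length) :
    ∃ c, (c, l[0]) ∈ (cycPairs l).drop 1 ∧ c ≠ l[1] := by
  refine ⟨l[l.length - 1], ?_, fun h => ?_⟩
  · rw [mem_drop_cycPairs_iff]
    refine ⟨l.length - 1, by omega, by omega, ?_⟩
    simp [show l.length - 1 + 1 = l.length by omega]
  · have := getElem_inj' hl _ _ h
    omega

lemma exists_after {l : List α} (hl : l.Nodup) (h4 : 4 ≤ l.length) :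
    ∃ c, (l[1], c) ∈ (cycPairs l).drop 1 ∧ c ≠ l[0] := by
  refine ⟨l[2], ?_, fun h => ?_⟩
  · rw [mem_drop_cycPairs_iff]
    refine ⟨1, by omega, by omega, ?_⟩
    simp [Nat.mod_eq_of_lt (show 1 + 1 < l.length by omega)]
  · have := getElem_inj' hl _ _ h
    omega

end lists

section

variable {α φ : Type}

@[simp] lemma v_mem_Fs (D : Data α φ) (f : φ) (a : α) : (Sum.inl a : W α φ) ∈ D.Fs f ↔ a ∈ D.verts ∧ D.mem f a := by
  constructor
  · rintro ⟨b, hb, h1, h2⟩
    cases h2; exact ⟨hb, h1⟩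
  · rintro ⟨h1, h2⟩; exact ⟨a, h1, h2, rfl⟩
@[simp] lemma r_mem_Fs (D : Data α φ) (f : φ) (a : φ ⊕ (Flat α φ ⊕ Flat α φ)) :
    (Sum.inr a : W α φ) ∈ D.Fs f ↔ False := by
  constructor
  · rintro ⟨b, hb, h1, h2⟩; cases h2
  · exact False.elim
@[simp] lemma v_mem_Ps (R : Flat α φ) (a : α) : (Sum.inl a : W α φ) ∈ Ps R ↔ a ∈ R.1 := by
  constructor
  · rintro (⟨b, hb, h2⟩ | h)
    · cases h2; exact hb
    · cases h
  · intro h; exact Or.inl ⟨a, h, rfl⟩
@[simp] lemma x_mem_Ps (R : Flat α φ) (f : φ) : (Sum.inr (Sum.inl f) : W α φ) ∈ Ps R ↔ f = R.2.1 := by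
  constructor
  · rintro (⟨b, hb, h2⟩ | h)
    · cases h2
    · cases h; rfl
  · rintro rfl; exact Or.inr rfl
@[simp] lemma r_mem_Ps (R : Flat α φ) (a : Flat α φ ⊕ Flat α φ) :
    (Sum.inr (Sum.inr a) : W α φ) ∈ Ps R ↔ False := by
  constructor
  · rintro (⟨b, hb, h2⟩ | h)
    · cases h2
    · cases h
  · exact False.elim
@[simp] lemma v_mem_Zs (R : Flat α φ) (a : α) : (Sum.inl a : W α φ) ∈ Zs R ↔ a ∈ R.1 := by
  constructor
  · rintro (⟨b, hb, h2⟩ | h)
    · cases h2; exact hb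
    · cases h
  · intro h; exact Or.inl ⟨a, h, rfl⟩
@[simp] lemma x_mem_Zs (R : Flat α φ) (f : φ) : (Sum.inr (Sum.inl f) : W α φ) ∈ Zs R ↔ False := by
  constructor
  · rintro (⟨b, hb, h2⟩ | h)
    · cases h2
    · cases h
  · exact False.elim
@[simp] lemma p_mem_Zs (R S : Flat α φ) : (Sum.inr (Sum.inr (Sum.inl S)) : W α φ) ∈ Zs R ↔ S = R := by
  constructor
  · rintro (⟨b, hb, h2⟩ | h)
    · cases h2
    · cases h; rfl
  · rintro rfl; exact Or.inr rfl
@[simp] lemma q_mem_Zs (R S : Flat α φ) : (Sum.inr (Sum.inr (Sum.inr S)) : W α φ) ∈ Zs R ↔ False := by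
  constructor
  · rintro (⟨b, hb, h2⟩ | h)
    · cases h2
    · cases h
  · exact False.elim

lemma es_sub_iff (R : Flat α φ) (Z : Set (W α φ)) : es R ⊆ Z ↔ ∀ a ∈ R.1.take 2, (Sum.inl a : W α φ) ∈ Z := by
  constructor
  · intro h a ha; exact h ⟨a, ha, rfl⟩
  · rintro h w ⟨a, ha, rfl⟩; exact h a ha

/-- a member of `fam1` -/
def Y1 (D : Data α φ) (f g : φ) : Set (W α φ) := (D.Fs f ∩ D.Fs g) ∪ {W.x f}

@[simp] lemma v_mem_Y1 (D : Data α φ) (f g : φ) (a : α) : (Sum.inl a : W α φ) ∈ Y1 D f g ↔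
    a ∈ D.verts ∧ D.mem f a ∧ D.mem g a := by
  unfold Y1; simp; tauto
@[simp] lemma x_mem_Y1 (D : Data α φ) (f g h : φ) : (Sum.inr (Sum.inl h) : W α φ) ∈ Y1 D f g ↔ h = f := by
  unfold Y1; simp
@[simp] lemma r_mem_Y1 (D : Data α φ) (f g : φ) (a : Flat α φ ⊕ Flat α φ) :
    (Sum.inr (Sum.inr a) : W α φ) ∈ Y1 D f g ↔ False := by
  unfold Y1; simp

lemma mem_fam1 {D : Data α φ} {Z : Set (W α φ)} : Z ∈ D.fam1 ↔
    ∃ f ∈ D.fcodes, ∃ g ∈ D.fcodes, f ≠ g ∧ Z = Y1 D f g := Iff.rfl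

lemma mem_verts {D : Data α φ} (hD : D.Good) {R : Flat α φ} (hR : R ∈ D.flats) {a : α} (ha : a ∈ R.1) :
    a ∈ D.verts ∧ D.mem R.2.1 a ∧ D.mem R.2.2 a := by
  have h := hD.sub R hR a ha
  exact ⟨h, (hD.inter R hR a h).2 ha⟩

/-- a facet containing two vertices of a flat -/
lemma meet {D : Data α φ} (hD : D.Good) {R : Flat α φ} (hR : R ∈ D.flats) {f : φ} (hf : f ∈ D.fcodes)
    (h1 : f ≠ R.2.1) (h2 : f ≠ R.2.2) {a b : α} (ha : a ∈ R.1) (hb : b ∈ R.1) (hab : a ≠ b)
    (hfa : D.mem f a) (hfb : D.mem f b) {c : α} (hc : c ∈ R.1) : D.mem f c ↔ (c = a ∨ c = b) := by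
  constructor
  · intro hfc
    by_contra hcon
    push Not at hcon
    have key : ∀ {u v : α}, u ∈ R.1 → v ∈ R.1 → u ≠ v → D.mem f u → D.mem f v → Cons R.1 u v := by
      intro u v hu hv huv hfu hfv
      by_contra hn
      unfold Cons at hn
      push Not at hn
      rcases hD.diag R hR u hu v hv huv hn.1 hn.2 f hf hfu hfv with h | h
      · exact h1 h
      · exact h2 h
    exact no_triangle (hD.nd R hR) (hD.len R hR) ha hb hc hcon.1.symm hcon.2.symm hab
      (key ha hb hab hfa hfb) (key ha hc hcon.1.symm hfa hfc) (key hb hc hcon.2.symm hfb hfc)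
  · rintro (rfl | rfl)
    · exact hfa
    · exact hfb

/-- the third facet at an edge of a flat -/
lemma third {D : Data α φ} (hD : D.Good) {R : Flat α φ} (hR : R ∈ D.flats) {e : α × α}
    (he : e ∈ cycPairs R.1) : ∃ g ∈ D.fcodes, g ≠ R.2.1 ∧ g ≠ R.2.2 ∧
      ∀ c ∈ R.1, (D.mem g c ↔ (c = e.1 ∨ c = e.2)) := by
  obtain ⟨h1, h2, h3, t, ht, ht1, ht2⟩ := pair_props (hD.nd R hR) (hD.len R hR) he
  obtain ⟨-, hp⟩ := hD.edge R hR e he
  obtain ⟨f, hf, hf1, hf2, hf3⟩ := hp t (hD.sub R hR t ht) ht1 ht2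
  have hm := mem_verts hD hR ht
  have n1 : f ≠ R.2.1 := by rintro rfl; exact hf3 hm.2.1
  have n2 : f ≠ R.2.2 := by rintro rfl; exact hf3 hm.2.2
  exact ⟨f, hf, n1, n2, fun c hc => meet hD hR hf n1 n2 h1 h2 h3 hf1 hf2 hc⟩

lemma sepC {D : Data α φ} (hD : D.Good) {R S : Flat α φ} (hR : R ∈ D.flats) (hS : S ∈ D.flats)
    (h : ∀ c ∈ S.1.take 2, c ∈ R.1) : S = R := by
  by_contra hne
  have key : ∀ (P : Flat α φ), P ∈ D.flats → ∀ f, (∀ c ∈ P.1.take 2, D.mem f c) → D.eIn P f := by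
    intro P hP f hf
    unfold Data.eIn
    rw [List.all_eq_true]
    exact hf
  refine hD.ne R hR (hD.sep R hR S hS (Ne.symm hne) R.2.1 (hD.mem1 R hR) R.2.2 (hD.mem2 R hR)
    (key R hR _ ?_) (key R hR _ ?_) (key S hS _ ?_) (key S hS _ ?_))
  · intro c hc; exact (mem_verts hD hR (List.mem_of_mem_take hc)).2.1
  · intro c hc; exact (mem_verts hD hR (List.mem_of_mem_take hc)).2.2
  · intro c hc; exact (mem_verts hD hR (h c hc)).2.1
  · intro c hc; exact (mem_verts hD hR (h c hc)).2.2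

lemma Y1_flat {D : Data α φ} (hD : D.Good) {R : Flat α φ} (hR : R ∈ D.flats) :
    Y1 D R.2.1 R.2.2 = Ps R := by
  ext w
  rcases w with a | f | P | Q
  · rw [v_mem_Y1, v_mem_Ps]
    constructor
    · rintro ⟨h1, h2⟩; exact (hD.inter R hR a h1).1 h2
    · intro h; exact mem_verts hD hR h
  · simp
  · simp
  · simp

/-! ### members of the families -/

lemma fam2_first {D : Data α φ} {f g : φ} (hf : f ∈ D.fcodes) (hg : g ∈ D.fcodes) (hfg : f ≠ g)
    (h : ∀ S ∈ D.flats, Y1 D f g ≠ Ps S) : Y1 D f g ∈ D.fam2 :=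
  Or.inl ⟨⟨f, hf, g, hg, hfg, rfl⟩, h⟩

lemma fam2_second {D : Data α φ} {R : Flat α φ} (hR : R ∈ D.flats) {f g : φ} (hf : f ∈ D.fcodes)
    (hg : g ∈ D.fcodes) (hfg : f ≠ g) (h : Y1 D f g ≠ Ps R) : (Ps R ∩ Y1 D f g) ∪ {W.p R} ∈ D.fam2 :=
  Or.inr ⟨R, hR, Y1 D f g, ⟨f, hf, g, hg, hfg, rfl⟩, h, rfl⟩

/-- members of `fam2` -/
lemma fam2_cases {D : Data α φ} {Z : Set (W α φ)} (hZ : Z ∈ D.fam2) :
    (∃ f ∈ D.fcodes, ∃ g ∈ D.fcodes, f ≠ g ∧ Z = Y1 D f g ∧ ∀ S ∈ D.flats, Y1 D f g ≠ Ps S) ∨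
    (∃ S ∈ D.flats, ∃ f ∈ D.fcodes, ∃ g ∈ D.fcodes, f ≠ g ∧ Y1 D f g ≠ Ps S ∧
      Z = (Ps S ∩ Y1 D f g) ∪ {W.p S}) := by
  rcases hZ with ⟨⟨f, hf, g, hg, hfg, rfl⟩, h⟩ | ⟨S, hS, Y, ⟨f, hf, g, hg, hfg, rfl⟩, h1, h2⟩
  · exact Or.inl ⟨f, hf, g, hg, hfg, rfl, h⟩
  · exact Or.inr ⟨S, hS, f, hf, g, hg, hfg, h1, h2⟩

lemma fam2_q {D : Data α φ} {Z : Set (W α φ)} (hZ : Z ∈ D.fam2) (R : Flat α φ) :
    (Sum.inr (Sum.inr (Sum.inr R)) : W α φ) ∉ Z := by
  rcases fam2_cases hZ with ⟨f, hf, g, hg, hfg, rfl, h⟩ | ⟨S, hS, f, hf, g, hg, hfg, h1, rfl⟩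
  · simp
  · simp

/-- members of `fam2` containing `p R`. -/
lemma fam2_p {D : Data α φ} {Z : Set (W α φ)} (hZ : Z ∈ D.fam2) {R : Flat α φ}
    (h : (Sum.inr (Sum.inr (Sum.inl R)) : W α φ) ∈ Z) :
    ∃ f ∈ D.fcodes, ∃ g ∈ D.fcodes, f ≠ g ∧ Y1 D f g ≠ Ps R ∧ Z = (Ps R ∩ Y1 D f g) ∪ {W.p R} := by
  rcases fam2_cases hZ with ⟨f, hf, g, hg, hfg, rfl, h2⟩ | ⟨S, hS, f, hf, g, hg, hfg, h1, rfl⟩
  · simp at h
  · have : R = S := by simpa using h
    subst this
    exact ⟨f, hf, g, hg, hfg, h1, rfl⟩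

/-- members of `fam3` containing `q R`. -/
lemma fam3_q {D : Data α φ} {Z : Set (W α φ)} (hZ : Z ∈ D.fam3) {R : Flat α φ}
    (h : (Sum.inr (Sum.inr (Sum.inr R)) : W α φ) ∈ Z) :
    ∃ Y ∈ D.vis3 R, ∃ Y' ∈ D.fam2, Y' ∉ D.vis3 R ∧ Z = (Y ∩ Y') ∪ {W.q R} := by
  rcases hZ with ⟨h1, h2⟩ | ⟨S, hS, Y, hY, Y', hY', h1, rfl⟩
  · exact absurd h (fam2_q h1 R)
  · have : R = S := by
      rcases h with h | h
      · exact absurd h.1 (fam2_q hY.1 R)
      · cases h; rfl
    subst this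
    exact ⟨Y, hY, Y', hY', h1, rfl⟩

/-- intersection of a flat with a third facet -/
lemma T1_eq {D : Data α φ} (hD : D.Good) {R : Flat α φ} (hR : R ∈ D.flats) {g : φ} {a b : α}
    (ha : a ∈ R.1) (hb : b ∈ R.1) (hg : ∀ c ∈ R.1, (D.mem g c ↔ (c = a ∨ c = b))) :
    (Ps R ∩ Y1 D R.2.1 g) ∪ {W.p R} = {w | w ∈ [W.p R, W.x R.2.1, W.v a, W.v b]} := by
  ext w
  rcases w with c | f | P | Q
  · simp
    constructor
    · rintro ⟨h1, h2, h3, h4⟩; exact (hg c h1).1 h4
    · intro h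
      have hc : c ∈ R.1 := by rcases h with rfl | rfl <;> assumption
      exact ⟨hc, (mem_verts hD hR hc).1, (mem_verts hD hR hc).2.1, (hg c hc).2 h⟩
  · simp
  · simp
  · simp

/-- the third facet does not cut out the flat. -/
lemma Y1_ne {D : Data α φ} (hD : D.Good) {R : Flat α φ} (hR : R ∈ D.flats) {e : α × α}
    (he : e ∈ cycPairs R.1) {f g : φ} (hg : ∀ c ∈ R.1, (D.mem g c ↔ (c = e.1 ∨ c = e.2))) :
    Y1 D f g ≠ Ps R := by
  intro h
  obtain ⟨h1, h2, h3, t, ht, ht1, ht2⟩ := pair_props (hD.nd R hR) (hD.len R hR) he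
  have : (Sum.inl t : W α φ) ∈ Y1 D f g := by rw [h]; simpa using ht
  rw [v_mem_Y1] at this
  rcases (hg t ht).1 this.2.2 with h | h
  · exact ht1 h
  · exact ht2 h

/-- the first set -/
lemma T1_fam2 {D : Data α φ} (hD : D.Good) {R : Flat α φ} (hR : R ∈ D.flats) {e : α × α}
    (he : e ∈ cycPairs R.1) : {w | w ∈ [W.p R, W.x R.2.1, W.v e.1, W.v e.2]} ∈ D.fam2 := by
  obtain ⟨g, hg, n1, n2, hg3⟩ := third hD hR he
  obtain ⟨h1, h2, h3, -⟩ := pair_props (hD.nd R hR) (hD.len R hR) he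
  rw [← T1_eq hD hR h1 h2 hg3]
  exact fam2_second hR (hD.mem1 R hR) hg n1.symm (Y1_ne hD hR he hg3)

/-- uniqueness of the first set in `fam2` -/
lemma T1_unique {D : Data α φ} (hD : D.Good) {R : Flat α φ} (hR : R ∈ D.flats) {a b : α}
    (ha : a ∈ R.1) (hb : b ∈ R.1) (hab : a ≠ b) {Z : Set (W α φ)} (hZ : Z ∈ D.fam2)
    (h : {w | w ∈ [W.p R, W.x R.2.1, W.v a, W.v b]} ⊆ Z) :
    Z = {w | w ∈ [W.p R, W.x R.2.1, W.v a, W.v b]} := by
  obtain ⟨f, hf, g, hg, hfg, hne, rfl⟩ := fam2_p hZ (R := R) (h (by simp))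
  have hx : (Sum.inr (Sum.inl R.2.1) : W α φ) ∈ (Ps R ∩ Y1 D f g) ∪ {W.p R} := h (by simp)
  have hva : (Sum.inl a : W α φ) ∈ (Ps R ∩ Y1 D f g) ∪ {W.p R} := h (by simp)
  have hvb : (Sum.inl b : W α φ) ∈ (Ps R ∩ Y1 D f g) ∪ {W.p R} := h (by simp)
  simp at hx hva hvb
  subst hx
  have hg2 : g ≠ R.2.2 := by rintro rfl; exact hne (Y1_flat hD hR)
  exact T1_eq hD hR ha hb (fun c hc => meet hD hR hg hfg.symm hg2 ha hb hab hva.2.2.2 hvb.2.2.2 hc)

lemma nsp {D : Data α φ} (hD : D.Good) {R : Flat α φ} (hR : R ∈ D.flats) {e : α × α}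
    (he : e ∈ (cycPairs R.1).drop 1) {Z : Set (W α φ)}
    (hZ : ∀ c ∈ R.1, (Sum.inl c : W α φ) ∈ Z → c = e.1 ∨ c = e.2) : ¬ es R ⊆ Z := by
  intro h
  rw [es_sub_iff] at h
  exact drop_not_special (hD.nd R hR) (hD.len R hR) he
    (fun c hc => hZ c (List.mem_of_mem_take hc) (h c hc))

/-- Case 1. -/
lemma case1 {D : Data α φ} (hD : D.Good) {R : Flat α φ} (hR : R ∈ D.flats) {e : α × α}
    (he : e ∈ (cycPairs R.1).drop 1) :
    {w | w ∈ [W.p R, W.x R.2.1, W.v e.1, W.v e.2]} ∈ D.fam3 ∧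
    (∀ Z ∈ D.fam3, {w | w ∈ [W.p R, W.x R.2.1, W.v e.1, W.v e.2]} ⊆ Z →
      Z = {w | w ∈ [W.p R, W.x R.2.1, W.v e.1, W.v e.2]}) := by
  have he' := List.mem_of_mem_drop he
  obtain ⟨h1, h2, h3, -⟩ := pair_props (hD.nd R hR) (hD.len R hR) he'
  have hT := T1_fam2 hD hR he'
  refine ⟨Or.inl ⟨hT, ?_⟩, ?_⟩
  · rintro S hS ⟨-, hes, -⟩
    rw [es_sub_iff] at hes
    have hc : ∀ c ∈ S.1.take 2, c = e.1 ∨ c = e.2 := by
      intro c hc
      simpa using hes c hc
    have hSR : S = R := sepC hD hR hS (fun c h => by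
      rcases hc c h with rfl | rfl <;> assumption)
    subst hSR
    exact drop_not_special (hD.nd S hS) (hD.len S hS) he hc
  · intro Z hZ hsub
    rcases hZ with ⟨hZ, -⟩ | ⟨S, hS, Y, hY, Y', hY', hn, rfl⟩
    · exact T1_unique hD hR h1 h2 h3 hZ hsub
    · have hin : ∀ w : W α φ, w ∈ [W.p R, W.x R.2.1, W.v e.1, W.v e.2] → w ∈ Y ∩ Y' := by
        intro w hw
        rcases hsub hw with h | h
        · exact h
        · exfalso
          have hw' : w = W.q S := h
          subst hw'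
          simp at hw
      have e1 := T1_unique hD hR h1 h2 h3 hY.1 (fun w hw => (hin w hw).1)
      have e2 := T1_unique hD hR h1 h2 h3 hY' (fun w hw => (hin w hw).2)
      rw [e1, ← e2] at hY
      exact absurd hY hn

/-- the flat with the other apex -/
lemma Yq_vis {D : Data α φ} (hD : D.Good) {R : Flat α φ} (hR : R ∈ D.flats) :
    Y1 D R.2.2 R.2.1 ∈ D.vis3 R ∧ ∀ S ∈ D.flats, Y1 D R.2.2 R.2.1 ≠ Ps S := by
  have hne := hD.ne R hR
  have h0 : ∀ S ∈ D.flats, Y1 D R.2.2 R.2.1 ≠ Ps S := by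
    intro S hS h
    have hx : (Sum.inr (Sum.inl R.2.2) : W α φ) ∈ Ps S := by rw [← h]; simp
    have hv : ∀ c ∈ S.1, c ∈ R.1 := by
      intro c hc
      have : (Sum.inl c : W α φ) ∈ Y1 D R.2.2 R.2.1 := by rw [h]; simpa using hc
      rw [v_mem_Y1] at this
      exact (hD.inter R hR c this.1).1 ⟨this.2.2, this.2.1⟩
    have hSR : S = R := sepC hD hR hS (fun c hc => hv c (List.mem_of_mem_take hc))
    subst hSR
    rw [x_mem_Ps] at hx
    exact hne hx.symm
  refine ⟨⟨fam2_first (hD.mem2 R hR) (hD.mem1 R hR) hne.symm h0, ?_, ?_⟩, h0⟩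
  · rw [es_sub_iff]
    intro a ha
    have := mem_verts hD hR (List.mem_of_mem_take ha)
    rw [v_mem_Y1]
    exact ⟨this.1, this.2.2, this.2.1⟩
  · intro h
    have hx : (Sum.inr (Sum.inl R.2.2) : W α φ) ∈ Zs R := by rw [← h]; simp
    simp at hx

/-- Case 2. -/
lemma case2 {D : Data α φ} (hD : D.Good) {R : Flat α φ} (hR : R ∈ D.flats) {e : α × α}
    (he : e ∈ (cycPairs R.1).drop 1) :
    {w | w ∈ [W.q R, W.x R.2.2, W.v e.1, W.v e.2]} ∈ D.fam3 ∧
    (∀ Z ∈ D.fam3, {w | w ∈ [W.q R, W.x R.2.2, W.v e.1, W.v e.2]} ⊆ Z →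
      Z = {w | w ∈ [W.q R, W.x R.2.2, W.v e.1, W.v e.2]}) := by
  have he' := List.mem_of_mem_drop he
  obtain ⟨h1, h2, h3, -⟩ := pair_props (hD.nd R hR) (hD.len R hR) he'
  have hne := hD.ne R hR
  obtain ⟨g, hg, n1, n2, hg3⟩ := third hD hR he'
  obtain ⟨hvis, hYne⟩ := Yq_vis hD hR
  have hmem : ∀ c, (c = e.1 ∨ c = e.2) → c ∈ R.1 := by
    rintro c (rfl | rfl) <;> assumption
  constructor
  · by_cases hcase : ∀ S ∈ D.flats, Y1 D R.2.2 g ≠ Ps S
    · refine Or.inr ⟨R, hR, Y1 D R.2.2 R.2.1, hvis, Y1 D R.2.2 g,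
        fam2_first (hD.mem2 R hR) hg n2.symm hcase, ?_, ?_⟩
      · rintro ⟨-, hes, -⟩
        refine nsp hD hR he (fun c hc hcZ => ?_) hes
        rw [v_mem_Y1] at hcZ
        exact (hg3 c hc).1 hcZ.2.2
      · ext w
        rcases w with c | f | P | Q
        · simp
          constructor
          · intro h
            have hc := hmem c h
            have := mem_verts hD hR hc
            exact ⟨⟨this.1, this.2.2, this.2.1⟩, this.1, this.2.2, (hg3 c hc).2 h⟩
          · rintro ⟨⟨k1, k2, k3⟩, -, -, k4⟩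
            exact (hg3 c ((hD.inter R hR c k1).1 ⟨k3, k2⟩)).1 k4
        · simp
        · simp
        · simp
    · push Not at hcase
      obtain ⟨S, hS, hYS⟩ := hcase
      have hx : R.2.2 = S.2.1 := by
        have hx : (Sum.inr (Sum.inl R.2.2) : W α φ) ∈ Ps S := by rw [← hYS]; simp
        simpa using hx
      have hv : ∀ c, c ∈ S.1 ↔ (c ∈ D.verts ∧ D.mem R.2.2 c ∧ D.mem g c) := by
        intro c
        rw [← v_mem_Y1, hYS, v_mem_Ps]
      refine Or.inr ⟨R, hR, Y1 D R.2.2 R.2.1, hvis, (Ps S ∩ Y1 D R.2.2 R.2.1) ∪ {W.p S},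
        fam2_second hS (hD.mem2 R hR) (hD.mem1 R hR) hne.symm (hYne S hS), ?_, ?_⟩
      · rintro ⟨-, hes, -⟩
        refine nsp hD hR he (fun c hc hcZ => ?_) hes
        simp at hcZ
        exact (hg3 c hc).1 ((hv c).1 hcZ.1).2.2
      · ext w
        rcases w with c | f | P | Q
        · simp
          constructor
          · intro h
            have hc := hmem c h
            have := mem_verts hD hR hc
            exact ⟨⟨this.1, this.2.2, this.2.1⟩, (hv c).2 ⟨this.1, this.2.2, (hg3 c hc).2 h⟩,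
              this.1, this.2.2, this.2.1⟩
          · rintro ⟨⟨k1, k2, k3⟩, k4, -, -⟩
            exact (hg3 c ((hD.inter R hR c k1).1 ⟨k3, k2⟩)).1 ((hv c).1 k4).2.2
        · simp
          intro h; rw [h, hx]; exact ⟨rfl, rfl⟩
        · simp
        · simp
  · intro Z hZ hsub
    obtain ⟨Y, hY, Y', hY', hn, rfl⟩ := fam3_q hZ (R := R) (hsub (by simp))
    have hin : ∀ w : W α φ, w ∈ [W.x R.2.2, W.v e.1, W.v e.2] → w ∈ Y ∩ Y' := by
      intro w hw
      rcases hsub (List.mem_cons_of_mem _ hw) with h | h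
      · exact h
      · exfalso
        have hw' : w = W.q R := h
        subst hw'
        simp at hw
    have hx := hin (W.x R.2.2) (by simp)
    have hva := hin (W.v e.1) (by simp)
    have hvb := hin (W.v e.2) (by simp)
    -- determine `Y`
    have hYeq : Y = Y1 D R.2.2 R.2.1 := by
      obtain ⟨hYf, hes, -⟩ := hY
      have hes' := (es_sub_iff R Y).1 hes
      rcases fam2_cases hYf with ⟨f, hf, g1, hg1, hfg, rfl, h⟩ | ⟨S, hS, f, hf, g1, hg1, hfg, k1, rfl⟩
      · have hf' : R.2.2 = f := by simpa using hx.1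
        subst hf'
        have hg1' : g1 = R.2.1 := by
          by_contra hcon
          have hm : ∀ c ∈ R.1, (D.mem g1 c ↔ (c = e.1 ∨ c = e.2)) := fun c hc =>
            meet hD hR hg1 hcon hfg.symm h1 h2 h3 ((v_mem_Y1 _ _ _ _).1 hva.1).2.2
              ((v_mem_Y1 _ _ _ _).1 hvb.1).2.2 hc
          refine nsp hD hR he (fun c hc hcZ => ?_) hes
          exact (hm c hc).1 ((v_mem_Y1 _ _ _ _).1 hcZ).2.2
        rw [hg1']
      · exfalso
        have hSR : R = S := sepC hD hS hR (fun c hc => by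
          have := hes' c hc
          simp at this
          exact this.1)
        subst hSR
        have := hx.1
        simp at this
        exact hne this.1.symm
    have hes' : ¬ es R ⊆ Y' := by
      intro hes
      apply hn
      refine ⟨hY', hes, ?_⟩
      intro h
      have := hx.2
      rw [h] at this
      simp at this
    rw [hYeq]
    have key : ∀ c ∈ R.1, ((Sum.inl c : W α φ) ∈ Y' ↔ (c = e.1 ∨ c = e.2)) := by
      intro c hc
      have hcv := mem_verts hD hR hc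
      constructor
      · intro hcY
        rcases fam2_cases hY' with ⟨f, hf, g1, hg1, hfg, rfl, h⟩ | ⟨S, hS, f, hf, g1, hg1, hfg, k1, rfl⟩
        · have hf' : R.2.2 = f := by simpa using hx.2
          subst hf'
          have hg1' : g1 ≠ R.2.1 := by
            rintro rfl
            apply hes'
            rw [es_sub_iff]
            intro a ha
            have := mem_verts hD hR (List.mem_of_mem_take ha)
            rw [v_mem_Y1]
            exact ⟨this.1, this.2.2, this.2.1⟩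
          exact (meet hD hR hg1 hg1' hfg.symm h1 h2 h3 ((v_mem_Y1 _ _ _ _).1 hva.2).2.2
              ((v_mem_Y1 _ _ _ _).1 hvb.2).2.2 hc).1 ((v_mem_Y1 _ _ _ _).1 hcY).2.2
        · have hx2 := hx.2
          have hva2 := hva.2
          have hvb2 := hvb.2
          simp at hx2 hva2 hvb2 hcY
          obtain ⟨hx2, rfl⟩ := hx2
          by_cases hg1' : g1 = R.2.1
          · -- then use the second facet of `S`
            have hS2 : S.2.2 ≠ R.2.2 := by
              intro h; exact hD.ne S hS (by rw [← hx2, h])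
            have hS3 : S.2.2 ≠ R.2.1 := by
              intro h
              have hSR : R = S := sepC hD hS hR (fun c hc => by
                have := mem_verts hD hR (List.mem_of_mem_take hc)
                refine (hD.inter S hS c this.1).1 ⟨?_, ?_⟩
                · rw [← hx2]; exact this.2.2
                · rw [h]; exact this.2.1)
              subst hSR
              exact hne hx2.symm
            exact (meet hD hR (hD.mem2 S hS) hS3 hS2 h1 h2 h3 (mem_verts hD hS hva2.1).2.2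
              (mem_verts hD hS hvb2.1).2.2 hc).1 (mem_verts hD hS hcY.1).2.2
          · exact (meet hD hR hg1 hg1' hfg.symm h1 h2 h3 hva2.2.2.2 hvb2.2.2.2 hc).1 hcY.2.2.2
      · rintro (rfl | rfl)
        · exact hva.2
        · exact hvb.2
    ext w
    rcases w with c | f | P | Q
    · simp
      constructor
      · rintro ⟨⟨k1, k2, k3⟩, k4⟩
        exact (key c ((hD.inter R hR c k1).1 ⟨k3, k2⟩)).1 k4
      · intro h
        have hc := hmem c h
        have := mem_verts hD hR hc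
        exact ⟨⟨this.1, this.2.2, this.2.1⟩, (key c hc).2 h⟩
    · simp
      rintro rfl
      exact hx.2
    · simp
    · simp

/-- the pyramid with apex `p` is in `fam2` -/
lemma Zs_fam2 {D : Data α φ} (hD : D.Good) {R : Flat α φ} (hR : R ∈ D.flats) : Zs R ∈ D.fam2 := by
  have hne := hD.ne R hR
  have h := fam2_second hR (hD.mem2 R hR) (hD.mem1 R hR) hne.symm ((Yq_vis hD hR).2 R hR)
  have e : (Ps R ∩ Y1 D R.2.2 R.2.1) ∪ {W.p R} = Zs R := by
    ext w
    rcases w with c | f | P | Q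
    · simp
      intro hc
      have := mem_verts hD hR hc
      exact ⟨this.1, this.2.2, this.2.1⟩
    · simp
      rintro rfl h; exact hne h
    · simp
    · simp
  rw [← e]; exact h

lemma T1_vis {D : Data α φ} (hD : D.Good) {R : Flat α φ} (hR : R ∈ D.flats) :
    {w | w ∈ [W.p R, W.x R.2.1, W.v (R.1[0]'(by have := hD.len R hR; omega)),
      W.v (R.1[1]'(by have := hD.len R hR; omega))]} ∈ D.vis3 R := by
  have h4 := hD.len R hR
  refine ⟨T1_fam2 hD hR (first_mem h4), ?_, ?_⟩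
  · rw [es_sub_iff]
    intro a ha
    rw [take_two h4] at ha
    simp at ha ⊢
    exact ha
  · intro h
    have : (Sum.inr (Sum.inl R.2.1) : W α φ) ∈ Zs R := by rw [← h]; simp
    simp at this

/-- Case 3. -/
lemma case3 {D : Data α φ} (hD : D.Good) {R : Flat α φ} (hR : R ∈ D.flats) {a b : α}
    (ha : a = R.1[0]'(by have := hD.len R hR; omega)) (hb : b = R.1[1]'(by have := hD.len R hR; omega)) :
    {w | w ∈ [W.p R, W.q R, W.v a, W.v b]} ∈ D.fam3 ∧
    (∀ Z ∈ D.fam3, {w | w ∈ [W.p R, W.q R, W.v a, W.v b]} ⊆ Z →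
      Z = {w | w ∈ [W.p R, W.q R, W.v a, W.v b]}) := by
  have h4 := hD.len R hR
  have hvis := T1_vis hD hR
  rw [← ha, ← hb] at hvis
  have he' := first_mem h4
  obtain ⟨h1, h2, h3, -⟩ := pair_props (hD.nd R hR) h4 he'
  simp only at h1 h2 h3
  rw [← ha] at h1
  rw [← hb] at h2
  rw [← ha, ← hb] at h3
  have hne := hD.ne R hR
  constructor
  · refine Or.inr ⟨R, hR, _, hvis, Zs R, Zs_fam2 hD hR, fun h => h.2.2 rfl, ?_⟩
    ext w
    rcases w with c | f | P | Q
    · simp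
      rintro (rfl | rfl) <;> assumption
    · simp
    · simp
    · simp
  · intro Z hZ hsub
    obtain ⟨Y, hY, Y', hY', hn, rfl⟩ := fam3_q hZ (R := R) (hsub (by simp))
    have hin : ∀ w : W α φ, w ∈ [W.p R, W.v a, W.v b] → w ∈ Y ∩ Y' := by
      intro w hw
      have hw2 : w ∈ [W.p R, W.q R, W.v a, W.v b] := by simp at hw ⊢; tauto
      rcases hsub hw2 with h | h
      · exact h
      · exfalso
        have hw' : w = W.q R := h
        subst hw'
        simp at hw
    have hp := hin (W.p R) (by simp)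
    have hva := hin (W.v a) (by simp)
    have hvb := hin (W.v b) (by simp)
    have hY'eq : Y' = Zs R := by
      by_contra hcon
      apply hn
      refine ⟨hY', ?_, hcon⟩
      rw [es_sub_iff, take_two h4]
      intro c hc
      simp at hc
      rcases hc with rfl | rfl
      · rw [← ha]; exact hva.2
      · rw [← hb]; exact hvb.2
    obtain ⟨f, hf, g, hg, hfg, hneY, hYe⟩ := fam2_p hY.1 (R := R) hp.1
    have hva1 := hva.1
    have hvb1 := hvb.1
    rw [hYe] at hva1 hvb1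
    simp at hva1 hvb1
    have key : ∀ c ∈ R.1, (D.mem f c → D.mem g c → (c = a ∨ c = b)) := by
      intro c hc hfc hgc
      by_cases hf1 : f = R.2.1
      · have hg2 : g ≠ R.2.2 := by
          rintro rfl; rw [hf1] at hneY; exact hneY (Y1_flat hD hR)
        have hg1 : g ≠ R.2.1 := by rintro rfl; exact hfg hf1
        exact (meet hD hR hg hg1 hg2 h1 h2 h3 hva1.2.2.2 hvb1.2.2.2 hc).1 hgc
      · by_cases hf2 : f = R.2.2
        · have hg2 : g ≠ R.2.2 := by rintro rfl; exact hfg hf2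
          have hg1 : g ≠ R.2.1 := by
            rintro rfl
            apply hY.2.2
            rw [hYe, hf2]
            ext w
            rcases w with c | f | P | Q
            · simp
              intro hc
              have := mem_verts hD hR hc
              exact ⟨this.1, this.2.2, this.2.1⟩
            · simp
              rintro rfl h; exact hne h
            · simp
            · simp
          exact (meet hD hR hg hg1 hg2 h1 h2 h3 hva1.2.2.2 hvb1.2.2.2 hc).1 hgc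
        · exact (meet hD hR hf hf1 hf2 h1 h2 h3 hva1.2.2.1 hvb1.2.2.1 hc).1 hfc
    rw [hY'eq]
    ext w
    rcases w with c | f' | P | Q
    · simp
      constructor
      · rintro ⟨k1, k2⟩
        rw [hYe] at k1
        simp at k1
        exact key c k2 k1.2.2.1 k1.2.2.2
      · rintro (rfl | rfl)
        · exact ⟨hva.1, h1⟩
        · exact ⟨hvb.1, h2⟩
    · simp
    · simp
      rintro rfl; exact hp.1
    · simp

/-- Cases 4 and 5. -/
lemma case4 {D : Data α φ} (hD : D.Good) {R : Flat α φ} (hR : R ∈ D.flats) {a b : α}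
    (ha : a ∈ R.1) (hb : b ∈ R.1) (hab : a ≠ b) (htake : ∀ c, c ∈ R.1.take 2 ↔ (c = a ∨ c = b))
    (hvis : {w | w ∈ [W.p R, W.x R.2.1, W.v a, W.v b]} ∈ D.vis3 R)
    {e : α × α} (he : e ∈ (cycPairs R.1).drop 1) (hea : a = e.1 ∨ a = e.2) (heb : b ≠ e.1 ∧ b ≠ e.2) :
    {w | w ∈ [W.p R, W.q R, W.x R.2.1, W.v a]} ∈ D.fam3 ∧
    (∀ Z ∈ D.fam3, {w | w ∈ [W.p R, W.q R, W.x R.2.1, W.v a]} ⊆ Z →
      Z = {w | w ∈ [W.p R, W.q R, W.x R.2.1, W.v a]}) := by
  have h4 := hD.len R hR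
  have he' := List.mem_of_mem_drop he
  constructor
  · refine Or.inr ⟨R, hR, _, hvis, _, T1_fam2 hD hR he', ?_, ?_⟩
    · rintro ⟨-, hes, -⟩
      exact nsp hD hR he (fun c hc hcZ => by simpa using hcZ) hes
    · ext w
      rcases w with c | f | P | Q
      · simp
        constructor
        · rintro rfl; exact ⟨Or.inl rfl, hea⟩
        · rintro ⟨rfl | rfl, k⟩
          · rfl
          · rcases k with k | k
            · exact absurd k heb.1
            · exact absurd k heb.2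
      · simp
      · simp
      · simp
  · intro Z hZ hsub
    obtain ⟨Y, hY, Y', hY', hn, rfl⟩ := fam3_q hZ (R := R) (hsub (by simp))
    have hin : ∀ w : W α φ, w ∈ [W.p R, W.x R.2.1, W.v a] → w ∈ Y ∩ Y' := by
      intro w hw
      have hw2 : w ∈ [W.p R, W.q R, W.x R.2.1, W.v a] := by simp at hw ⊢; tauto
      rcases hsub hw2 with h | h
      · exact h
      · exfalso
        have hw' : w = W.q R := h
        subst hw'
        simp at hw
    have hp := hin (W.p R) (by simp)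
    have hx := hin (W.x R.2.1) (by simp)
    have hva := hin (W.v a) (by simp)
    have hvb : (Sum.inl b : W α φ) ∈ Y := (es_sub_iff R Y).1 hY.2.1 b ((htake b).2 (Or.inr rfl))
    have hYe : Y = {w | w ∈ [W.p R, W.x R.2.1, W.v a, W.v b]} := by
      refine T1_unique hD hR ha hb hab hY.1 ?_
      intro w hw
      simp at hw
      rcases hw with rfl | rfl | rfl | rfl
      · exact hp.1
      · exact hx.1
      · exact hva.1
      · exact hvb
    have hbY' : (Sum.inl b : W α φ) ∉ Y' := by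
      intro hcon
      apply hn
      refine ⟨hY', ?_, ?_⟩
      · rw [es_sub_iff]
        intro c hc
        rcases (htake c).1 hc with rfl | rfl
        · exact hva.2
        · exact hcon
      · intro h
        have := hx.2
        rw [h] at this
        simp at this
    rw [hYe]
    ext w
    rcases w with c | f' | P | Q
    · simp
      constructor
      · rintro ⟨rfl | rfl, k2⟩
        · rfl
        · exact absurd k2 hbY'
      · rintro rfl
        exact ⟨Or.inl rfl, hva.2⟩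
    · simp
      rintro rfl; exact hx.2
    · simp
      rintro rfl; exact hp.2
    · simp

end

set_option linter.unusedSectionVars false

variable {α φ : Type} [DecidableEq α] [DecidableEq φ]

/-- G4-G5 (the simplices at the flats). -/
theorem gen_T {D : Data α φ} (hD : D.Good) : ∀ R ∈ D.flats, ∀ T ∈ Ts R, {w | w ∈ T} ∈ D.fam3 ∧
    (∀ Z ∈ D.fam3, {w | w ∈ T} ⊆ Z → Z = {w | w ∈ T}) := by
  intro R hR T hT
  have h4 := hD.len R hR
  have hnd := hD.nd R hR
  unfold Ts at hT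
  rw [List.mem_append] at hT
  rcases hT with hT | hT
  · rw [List.mem_flatMap] at hT
    obtain ⟨e, he, hT⟩ := hT
    simp only [List.mem_cons, List.not_mem_nil, or_false] at hT
    rcases hT with rfl | rfl
    · exact case1 hD hR he
    · exact case2 hD hR he
  · rw [first_pair h4] at hT
    simp only [List.flatMap_cons, List.flatMap_nil, List.append_nil, List.mem_cons,
      List.not_mem_nil, or_false] at hT
    have h01 : R.1[0] ≠ R.1[1] := fun h => by
      have := getElem_inj' hnd _ _ h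
      omega
    have hm0 : R.1[0] ∈ R.1 := List.getElem_mem _
    have hm1 : R.1[1] ∈ R.1 := List.getElem_mem _
    have htake : ∀ c, c ∈ R.1.take 2 ↔ (c = R.1[0] ∨ c = R.1[1]) := by
      intro c; rw [take_two h4]; simp
    rcases hT with rfl | rfl | rfl
    · exact case3 hD hR rfl rfl
    · obtain ⟨c, hc, hcn⟩ := exists_before hnd h4
      exact case4 hD hR hm0 hm1 h01 htake (T1_vis hD hR) hc (Or.inr rfl) ⟨hcn.symm, h01.symm⟩
    · obtain ⟨c, hc, hcn⟩ := exists_after hnd h4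
      refine case4 hD hR hm1 hm0 h01.symm (fun c => by rw [htake c]; tauto) ?_ hc (Or.inl rfl)
        ⟨h01, hcn.symm⟩
      have := T1_vis hD hR
      convert this using 1
      ext w
      simp
      tauto

end Pool.Agent.Helper96.G4
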