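import Pool.Agent.Helper22.G4.Poly

/-! # G4-M2: the membership formula says what it should -/

namespace Pool.Agent.Helper96.G4

open Pool.Agent.Helper89 Pool.Agent.Helper91.PolyTime Pool.Agent.Helper22.G4

theorem foldl_add_eval (x : ℕ → ℝ) (l : List PTerm) (a : PTerm) :
    (l.foldl PTerm.add a).eval x = a.eval x + (l.map (PTerm.eval x)).sum := by
  induction l generalizing a with
  | nil => simp
  | cons b l ih => simp only [List.foldl_cons, ih, PTerm.eval, List.map_cons, List.sum_cons]; ring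

theorem sumT_eval (x : ℕ → ℝ) (l : List PTerm) :
    (sumT l).eval x = (l.map (PTerm.eval x)).sum := by
  unfold sumT
  rw [foldl_add_eval]
  simp [PTerm.eval]

theorem foldl_and_holds (x : ℕ → ℝ) (l : List QFormula) (a : QFormula) :
    (l.foldl QFormula.and a).Holds x ↔ a.Holds x ∧ ∀ φ ∈ l, φ.Holds x := by
  induction l generalizing a with
  | nil => simp
  | cons b l ih =>
    simp only [List.foldl_cons, ih, QFormula.Holds, List.mem_cons, forall_eq_or_imp, and_assoc]

theorem conjF_holds (x : ℕ → ℝ) (l : List QFormula) :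
    (conjF l).Holds x ↔ ∀ φ ∈ l, φ.Holds x := by
  unfold conjF
  rw [foldl_and_holds]
  simp [QFormula.Holds]

theorem sum_range_list (n : ℕ) (g : ℕ → ℝ) :
    ((List.range n).map g).sum = ∑ i ∈ Finset.range n, g i := by
  rw [Finset.sum_range, ← List.sum_ofFn, List.ofFn_eq_map]
  congr 1
  rw [← List.map_coe_finRange_eq_range, List.map_map]
  rfl

theorem sum_filter_list (n : ℕ) (q : ℕ → Bool) (g : ℕ → ℝ) :
    (((List.range n).filter q).map g).sum =
      ∑ i ∈ (Finset.range n).filter (fun i => q i = true), g i := by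
  rw [Finset.sum_filter, ← sum_range_list]
  induction (List.range n) with
  | nil => simp
  | cons a l ih =>
    by_cases h : q a = true
    · simp [h, ih]
    · simp [h, ih]

theorem sum_others (n u v : ℕ) (g : ℕ → ℝ) :
    ((others n u v).map g).sum =
      ∑ w ∈ (Finset.range n).filter (fun w => w ≠ u ∧ w ≠ v), g w := by
  unfold others
  rw [sum_filter_list]
  apply Finset.sum_congr _ (fun _ _ => rfl)
  ext w
  simp

/-- the condition with all witnesses chosen -/
def Cond (n : ℕ) (adj : ℕ → ℕ → Prop) (p : ℕ → ℕ → ℝ) (F L : ℕ → ℕ → ℕ → ℝ)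
    (D : ℕ → ℕ → ℝ) : Prop :=
  (∀ v < n, ∀ w < n, w ≠ v →
      ∑ i ∈ Finset.range 4, F v v i * p w i < ∑ i ∈ Finset.range 4, F v v i * p v i) ∧
  (∀ u v, u < v → v < n → adj u v →
      ∑ i ∈ Finset.range 4, F u v i * p u i = ∑ i ∈ Finset.range 4, F u v i * p v i ∧
      ∀ w < n, w ≠ u → w ≠ v →
        ∑ i ∈ Finset.range 4, F u v i * p w i < ∑ i ∈ Finset.range 4, F u v i * p u i) ∧
  (∀ u v, u < v → v < n → ¬ adj u v → (∀ w < n, 0 ≤ L u v w) ∧ L u v u + L u v v = 1 ∧
      ∑ w ∈ (Finset.range n).filter (fun w => w ≠ u ∧ w ≠ v), L u v w = 1 ∧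
      ∀ i < 4, L u v u * p u i + L u v v * p v i =
        ∑ w ∈ (Finset.range n).filter (fun w => w ≠ u ∧ w ≠ v), L u v w * p w i) ∧
  ∀ i < 4, ∑ v ∈ Finset.range n, D i v = 0 ∧
      ∀ k < 4, ∑ v ∈ Finset.range n, D i v * p v k = if k = i then 1 else 0

theorem algCond_iff (n : ℕ) (adj : ℕ → ℕ → Prop) :
    AlgCond n adj ↔ ∃ p F L D, Cond n adj p F L D := by
  classical
  constructor
  · rintro ⟨p, h1, h2, h3, h4⟩
    choose! f1 hf1 using h1
    choose! f2 hf2 using h2
    choose! l3 hl3 using h3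
    choose! d4 hd4 using h4
    refine ⟨p, fun u v => if u = v then f1 u else f2 u v, l3, d4, ?_, ?_, ?_, ?_⟩
    · intro v hv w hw hwv
      simpa using hf1 v hv w hw hwv
    · intro u v huv hv ha
      have hne : u ≠ v := by omega
      simp only [if_neg hne]
      exact hf2 u v huv hv ha
    · exact hl3
    · exact hd4
  · rintro ⟨p, F, L, D, h1, h2, h3, h4⟩
    exact ⟨p, fun v hv => ⟨F v v, h1 v hv⟩, fun u v huv hv ha => ⟨F u v, h2 u v huv hv ha⟩,
      fun u v huv hv ha => ⟨L u v, h3 u v huv hv ha⟩, fun i hi => ⟨D i, h4 i hi⟩⟩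

theorem dotT_eval (x : ℕ → ℝ) (n u v w : ℕ) :
    (dotT n u v w).eval x =
      ∑ i ∈ Finset.range 4, (vf n u v i).eval x * (vp w i).eval x := by
  unfold dotT
  rw [sumT_eval, List.map_map, ← sum_range_list]
  rfl

theorem vertF_holds (x : ℕ → ℝ) (n v : ℕ) :
    (vertF n v).Holds x ↔ ∀ w < n, w ≠ v →
      ∑ i ∈ Finset.range 4, (vf n v v i).eval x * (vp w i).eval x <
        ∑ i ∈ Finset.range 4, (vf n v v i).eval x * (vp v i).eval x := by
  unfold vertF
  rw [conjF_holds]
  simp only [List.mem_map, List.mem_filter, List.mem_range, Bool.not_eq_true',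
    decide_eq_false_iff_not, forall_exists_index, and_imp]
  constructor
  · intro h w hw hne
    simpa only [QFormula.Holds, dotT_eval] using h _ w hw hne rfl
  · rintro h _ w hw hne rfl
    simpa only [QFormula.Holds, dotT_eval] using h w hw hne

theorem mem_others (n u v w : ℕ) : w ∈ others n u v ↔ w < n ∧ w ≠ u ∧ w ≠ v := by
  unfold others
  simp

theorem edgeF_holds (x : ℕ → ℝ) (n u v : ℕ) :
    (edgeF n u v).Holds x ↔
      (∑ i ∈ Finset.range 4, (vf n u v i).eval x * (vp u i).eval x =
        ∑ i ∈ Finset.range 4, (vf n u v i).eval x * (vp v i).eval x ∧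
      ∀ w < n, w ≠ u → w ≠ v →
        ∑ i ∈ Finset.range 4, (vf n u v i).eval x * (vp w i).eval x <
          ∑ i ∈ Finset.range 4, (vf n u v i).eval x * (vp u i).eval x) := by
  unfold edgeF
  simp only [QFormula.Holds, conjF_holds, dotT_eval]
  refine and_congr Iff.rfl ?_
  constructor
  · intro h w hw hu hv
    have := h _ (List.mem_map.2 ⟨w, (mem_others n u v w).2 ⟨hw, hu, hv⟩, rfl⟩)
    simpa only [QFormula.Holds, dotT_eval] using this
  · intro h φ hφ
    obtain ⟨w, hw, rfl⟩ := List.mem_map.1 hφ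
    obtain ⟨hw, hu, hv⟩ := (mem_others n u v w).1 hw
    simpa only [QFormula.Holds, dotT_eval] using h w hw hu hv

theorem nonF_holds (x : ℕ → ℝ) (n u v : ℕ) :
    (nonF n u v).Holds x ↔
      ((∀ w < n, 0 ≤ (vl n u v w).eval x) ∧ (vl n u v u).eval x + (vl n u v v).eval x = 1 ∧
      ∑ w ∈ (Finset.range n).filter (fun w => w ≠ u ∧ w ≠ v), (vl n u v w).eval x = 1 ∧
      ∀ i < 4, (vl n u v u).eval x * (vp u i).eval x + (vl n u v v).eval x * (vp v i).eval x =
        ∑ w ∈ (Finset.range n).filter (fun w => w ≠ u ∧ w ≠ v),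
          (vl n u v w).eval x * (vp w i).eval x) := by
  unfold nonF
  simp only [QFormula.Holds, conjF_holds, sumT_eval, List.map_map]
  refine and_congr ?_ (and_congr ?_ (and_congr ?_ ?_))
  · constructor
    · intro h w hw
      have := h _ (List.mem_map.2 ⟨w, List.mem_range.2 hw, rfl⟩)
      simpa [QFormula.Holds, PTerm.eval] using this
    · intro h φ hφ
      obtain ⟨w, hw, rfl⟩ := List.mem_map.1 hφ
      simpa [QFormula.Holds, PTerm.eval] using h w (List.mem_range.1 hw)
  · simp [PTerm.eval]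
  · rw [show (PTerm.eval x ∘ fun w => vl n u v w) = fun w => (vl n u v w).eval x from rfl,
      sum_others]
    simp [PTerm.eval]
  · constructor
    · intro h i hi
      have := h _ (List.mem_map.2 ⟨i, List.mem_range.2 hi, rfl⟩)
      simp only [QFormula.Holds, sumT_eval, List.map_map] at this
      rw [← sum_others]
      exact this
    · intro h φ hφ
      obtain ⟨i, hi, rfl⟩ := List.mem_map.1 hφ
      have := h i (List.mem_range.1 hi)
      rw [← sum_others] at this
      simp only [QFormula.Holds, sumT_eval, List.map_map]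
      exact this

theorem dimF_holds (x : ℕ → ℝ) (n i : ℕ) :
    (dimF n i).Holds x ↔
      (∑ v ∈ Finset.range n, (vd n i v).eval x = 0 ∧
      ∀ k < 4, ∑ v ∈ Finset.range n, (vd n i v).eval x * (vp v k).eval x =
        if k = i then 1 else 0) := by
  unfold dimF
  simp only [QFormula.Holds, conjF_holds, sumT_eval, List.map_map]
  refine and_congr ?_ ?_
  · rw [← sum_range_list]
    have : (PTerm.const 0).eval x = 0 := by simp [PTerm.eval]
    rw [this]
    exact Iff.rfl
  · constructor
    · intro h k hk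
      have := h _ (List.mem_map.2 ⟨k, List.mem_range.2 hk, rfl⟩)
      simp only [QFormula.Holds, sumT_eval, List.map_map] at this
      rw [← sum_range_list]
      refine Eq.trans this ?_
      split_ifs <;> simp [PTerm.eval]
    · intro h φ hφ
      obtain ⟨k, hk, rfl⟩ := List.mem_map.1 hφ
      have := h k (List.mem_range.1 hk)
      rw [← sum_range_list] at this
      simp only [QFormula.Holds, sumT_eval, List.map_map]
      refine Eq.trans this ?_
      split_ifs <;> simp [PTerm.eval]

theorem memF_holds (x : ℕ → ℝ) (n : ℕ) (E : List (ℕ × ℕ)) :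
    (memF n E).Holds x ↔ Cond n (fun u v => (u, v) ∈ E ∨ (v, u) ∈ E)
      (fun v i => (vp v i).eval x) (fun u v i => (vf n u v i).eval x)
      (fun u v w => (vl n u v w).eval x) (fun i v => (vd n i v).eval x) := by
  unfold memF Cond
  rw [conjF_holds]
  constructor
  · intro h
    refine ⟨?_, ?_, ?_, ?_⟩
    · intro v hv
      exact (vertF_holds x n v).1 (h _ (List.mem_append_left _
        (List.mem_map.2 ⟨v, List.mem_range.2 hv, rfl⟩)))
    · intro u v huv hv ha
      have := h (pairF n E u v) (List.mem_append_right _ (List.mem_append_left _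
        (List.mem_flatMap.2 ⟨v, List.mem_range.2 hv,
          List.mem_map.2 ⟨u, List.mem_range.2 huv, rfl⟩⟩)))
      unfold pairF at this
      rw [if_pos ha] at this
      exact (edgeF_holds x n u v).1 this
    · intro u v huv hv ha
      have := h (pairF n E u v) (List.mem_append_right _ (List.mem_append_left _
        (List.mem_flatMap.2 ⟨v, List.mem_range.2 hv,
          List.mem_map.2 ⟨u, List.mem_range.2 huv, rfl⟩⟩)))
      unfold pairF at this
      rw [if_neg ha] at this
      exact (nonF_holds x n u v).1 this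
    · intro i hi
      exact (dimF_holds x n i).1 (h _ (List.mem_append_right _ (List.mem_append_right _
        (List.mem_map.2 ⟨i, List.mem_range.2 hi, rfl⟩))))
  · rintro ⟨h1, h2, h3, h4⟩ φ hφ
    rcases List.mem_append.1 hφ with hφ | hφ
    · obtain ⟨v, hv, rfl⟩ := List.mem_map.1 hφ
      exact (vertF_holds x n v).2 (h1 v (List.mem_range.1 hv))
    rcases List.mem_append.1 hφ with hφ | hφ
    · obtain ⟨v, hv, hφ⟩ := List.mem_flatMap.1 hφ
      obtain ⟨u, hu, rfl⟩ := List.mem_map.1 hφ
      have hv := List.mem_range.1 hv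
      have hu := List.mem_range.1 hu
      unfold pairF
      split_ifs with ha
      · exact (edgeF_holds x n u v).2 (h2 u v hu hv ha)
      · exact (nonF_holds x n u v).2 (h3 u v hu hv ha)
    · obtain ⟨i, hi, rfl⟩ := List.mem_map.1 hφ
      exact (dimF_holds x n i).2 (h4 i (List.mem_range.1 hi))

/-- an assignment from the witnesses -/
noncomputable def assign (n : ℕ) (p : ℕ → ℕ → ℝ) (F L : ℕ → ℕ → ℕ → ℝ) (D : ℕ → ℕ → ℝ)
    (k : ℕ) : ℝ :=
  if k < 4 * n then p (k / 4) (k % 4)
  else if k < 4 * n + n * n * (n + 4) then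
    (if (k - 4 * n) % (n + 4) < 4 then
      F ((k - 4 * n) / (n + 4) / n) ((k - 4 * n) / (n + 4) % n) ((k - 4 * n) % (n + 4))
    else
      L ((k - 4 * n) / (n + 4) / n) ((k - 4 * n) / (n + 4) % n) ((k - 4 * n) % (n + 4) - 4))
  else D ((k - (4 * n + n * n * (n + 4))) / n) ((k - (4 * n + n * n * (n + 4))) % n)

section

variable {n : ℕ} {p : ℕ → ℕ → ℝ} {F L : ℕ → ℕ → ℕ → ℝ} {D : ℕ → ℕ → ℝ}

theorem assign_p {v i : ℕ} (hv : v < n) (hi : i < 4) :
    (vp v i).eval (assign n p F L D) = p v i := by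
  have h1 : 4 * v + i < 4 * n := by omega
  have h2 : (4 * v + i) / 4 = v := by omega
  have h3 : (4 * v + i) % 4 = i := by omega
  simp only [vp, PTerm.eval, assign, if_pos h1, h2, h3]

theorem code_lt {u v r : ℕ} (hu : u < n) (hv : v < n) (hr : r < n + 4) :
    (u * n + v) * (n + 4) + r < n * n * (n + 4) := by
  have h1 : u * n + v + 1 ≤ n * n := by
    have : u * n + n ≤ n * n := by
      calc u * n + n = (u + 1) * n := by ring
        _ ≤ n * n := Nat.mul_le_mul_right _ hu
    omega
  calc (u * n + v) * (n + 4) + r < (u * n + v) * (n + 4) + (n + 4) := by omega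
    _ = (u * n + v + 1) * (n + 4) := by ring
    _ ≤ n * n * (n + 4) := Nat.mul_le_mul_right _ h1

theorem code_div {u v r : ℕ} (hv : v < n) (hr : r < n + 4) :
    ((u * n + v) * (n + 4) + r) / (n + 4) / n = u ∧
    ((u * n + v) * (n + 4) + r) / (n + 4) % n = v ∧
    ((u * n + v) * (n + 4) + r) % (n + 4) = r := by
  have h0 : 0 < n + 4 := by omega
  have hn : 0 < n := by omega
  have h1 : ((u * n + v) * (n + 4) + r) / (n + 4) = u * n + v := by
    rw [add_comm, mul_comm, Nat.add_mul_div_left _ _ h0, Nat.div_eq_of_lt hr, zero_add]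
  refine ⟨?_, ?_, ?_⟩
  · rw [h1, add_comm, mul_comm, Nat.add_mul_div_left _ _ hn, Nat.div_eq_of_lt hv, zero_add]
  · rw [h1, add_comm, mul_comm, Nat.add_mul_mod_self_left, Nat.mod_eq_of_lt hv]
  · rw [add_comm, mul_comm, Nat.add_mul_mod_self_left, Nat.mod_eq_of_lt hr]

theorem assign_f {u v i : ℕ} (hu : u < n) (hv : v < n) (hi : i < 4) :
    (vf n u v i).eval (assign n p F L D) = F u v i := by
  have hr : i < n + 4 := by omega
  have h1 : ¬ (4 * n + (u * n + v) * (n + 4) + i < 4 * n) := by
    have : 0 ≤ (u * n + v) * (n + 4) := Nat.zero_le _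
    omega
  have h2 : 4 * n + (u * n + v) * (n + 4) + i < 4 * n + n * n * (n + 4) := by
    have := code_lt hu hv hr
    omega
  have h3 : 4 * n + (u * n + v) * (n + 4) + i - 4 * n = (u * n + v) * (n + 4) + i := by omega
  obtain ⟨h4, h5, h6⟩ := code_div (u := u) hv hr
  simp only [vf, PTerm.eval, assign, if_neg h1, if_pos h2, h3, h4, h5, h6, if_pos hi]

theorem assign_l {u v w : ℕ} (hu : u < n) (hv : v < n) (hw : w < n) :
    (vl n u v w).eval (assign n p F L D) = L u v w := by
  have hr : 4 + w < n + 4 := by omega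
  have h1 : ¬ (4 * n + (u * n + v) * (n + 4) + 4 + w < 4 * n) := by
    have : 0 ≤ (u * n + v) * (n + 4) := Nat.zero_le _
    omega
  have h2 : 4 * n + (u * n + v) * (n + 4) + 4 + w < 4 * n + n * n * (n + 4) := by
    have := code_lt hu hv hr
    omega
  have h3 : 4 * n + (u * n + v) * (n + 4) + 4 + w - 4 * n = (u * n + v) * (n + 4) + (4 + w) := by
    omega
  obtain ⟨h4, h5, h6⟩ := code_div (u := u) hv hr
  have h7 : ¬ (4 + w < 4) := by omega
  have h8 : 4 + w - 4 = w := by omega
  simp only [vl, PTerm.eval, assign, if_neg h1, if_pos h2, h3, h4, h5, h6, if_neg h7, h8]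

theorem assign_d {i v : ℕ} (hv : v < n) :
    (vd n i v).eval (assign n p F L D) = D i v := by
  have hn : 0 < n := by omega
  have h1 : ¬ (4 * n + n * n * (n + 4) + i * n + v < 4 * n) := by
    have : 0 ≤ n * n * (n + 4) := Nat.zero_le _
    have : 0 ≤ i * n := Nat.zero_le _
    omega
  have h2 : ¬ (4 * n + n * n * (n + 4) + i * n + v < 4 * n + n * n * (n + 4)) := by
    have : 0 ≤ i * n := Nat.zero_le _
    omega
  have h3 : 4 * n + n * n * (n + 4) + i * n + v - (4 * n + n * n * (n + 4)) = v + n * i := by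
    rw [mul_comm n i]
    omega
  have h4 : (v + n * i) / n = i := by
    rw [Nat.add_mul_div_left _ _ hn, Nat.div_eq_of_lt hv, zero_add]
  have h5 : (v + n * i) % n = v := by
    rw [Nat.add_mul_mod_self_left, Nat.mod_eq_of_lt hv]
  simp only [vd, PTerm.eval, assign, if_neg h1, if_neg h2, h3, h4, h5]

theorem cond_congr {adj : ℕ → ℕ → Prop} {p' : ℕ → ℕ → ℝ} {F' L' : ℕ → ℕ → ℕ → ℝ}
    {D' : ℕ → ℕ → ℝ} (hp : ∀ v < n, ∀ i < 4, p' v i = p v i)
    (hF : ∀ u < n, ∀ v < n, ∀ i < 4, F' u v i = F u v i)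
    (hL : ∀ u < n, ∀ v < n, ∀ w < n, L' u v w = L u v w)
    (hD : ∀ i v, v < n → D' i v = D i v) (h : Cond n adj p F L D) :
    Cond n adj p' F' L' D' := by
  have key : ∀ u v w, u < n → v < n → w < n →
      ∑ i ∈ Finset.range 4, F' u v i * p' w i = ∑ i ∈ Finset.range 4, F u v i * p w i := by
    intro u v w hu hv hw
    apply Finset.sum_congr rfl
    intro i hi
    have hi := Finset.mem_range.1 hi
    rw [hF u hu v hv i hi, hp w hw i hi]
  obtain ⟨h1, h2, h3, h4⟩ := h
  refine ⟨?_, ?_, ?_, ?_⟩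
  · intro v hv w hw hne
    rw [key v v w hv hv hw, key v v v hv hv hv]
    exact h1 v hv w hw hne
  · intro u v huv hv ha
    have hu : u < n := by omega
    rw [key u v u hu hv hu, key u v v hu hv hv]
    refine ⟨(h2 u v huv hv ha).1, ?_⟩
    intro w hw hwu hwv
    rw [key u v w hu hv hw]
    exact (h2 u v huv hv ha).2 w hw hwu hwv
  · intro u v huv hv ha
    have hu : u < n := by omega
    obtain ⟨a1, a2, a3, a4⟩ := h3 u v huv hv ha
    refine ⟨?_, ?_, ?_, ?_⟩
    · intro w hw
      rw [hL u hu v hv w hw]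
      exact a1 w hw
    · rw [hL u hu v hv u hu, hL u hu v hv v hv]
      exact a2
    · rw [← a3]
      apply Finset.sum_congr rfl
      intro w hw
      exact hL u hu v hv w (Finset.mem_range.1 (Finset.mem_filter.1 hw).1)
    · intro i hi
      rw [hL u hu v hv u hu, hL u hu v hv v hv, hp u hu i hi, hp v hv i hi, a4 i hi]
      apply Finset.sum_congr rfl
      intro w hw
      have hw := Finset.mem_range.1 (Finset.mem_filter.1 hw).1
      rw [hL u hu v hv w hw, hp w hw i hi]
  · intro i hi
    obtain ⟨a1, a2⟩ := h4 i hi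
    refine ⟨?_, ?_⟩
    · rw [← a1]
      apply Finset.sum_congr rfl
      intro v hv
      exact hD i v (Finset.mem_range.1 hv)
    · intro k hk
      rw [← a2 k hk]
      apply Finset.sum_congr rfl
      intro v hv
      rw [hD i v (Finset.mem_range.1 hv), hp v (Finset.mem_range.1 hv) k hk]

end

/-- G4-M2 -/
theorem memF_iff (n : ℕ) (E : List (ℕ × ℕ)) :
    (∃ x : ℕ → ℝ, (memF n E).Holds x) ↔
      AlgCond n (fun u v => (u, v) ∈ E ∨ (v, u) ∈ E) := by
  rw [algCond_iff]
  constructor
  · rintro ⟨x, hx⟩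
    exact ⟨_, _, _, _, (memF_holds x n E).1 hx⟩
  · rintro ⟨p, F, L, D, h⟩
    refine ⟨assign n p F L D, (memF_holds _ n E).2 ?_⟩
    exact cond_congr (fun v hv i hi => assign_p hv hi)
      (fun u hu v hv i hi => assign_f hu hv hi) (fun u hu v hv w hw => assign_l hu hv hw)
      (fun i v hv => assign_d hv) h

end Pool.Agent.Helper96.G4
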