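import Pool.Agent.Helper22.G4.Sys
import Pool.Agent.Helper22.G4.St.N1
import Pool.Agent.Helper22.G4.St.N2
import Pool.Agent.Helper22.G4.St.N3
import Pool.Agent.Helper22.G4.St.N4
import Pool.Agent.Helper22.G4.St.N5

/-! # G4-N6 (assembly) -/

namespace Pool.Agent.Helper96.G4

open Pool.Agent.Helper22.G4

lemma one_le_nvar (L : List Q4) : 1 ≤ nvar L := by
  unfold nvar bnd
  omega

/-- G4-N6 (assembly). -/
theorem nfQ_ok (L : List Q4) : (nfQ L).OK := nfOf_ok (one_le_nvar L) posOf_lt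

theorem nfQ_strong {L : List Q4} (h : QuadSat L) : (nfQ L).Strong :=
  strong_of_posSat (one_le_nvar L) posOf_lt (posSat_of_quadSat h)

theorem nfQ_weak {L : List Q4} (h : (nfQ L).Weak) : QuadSat L :=
  quadSat_of_posWeak (posWeak_of_weak (one_le_nvar L) posOf_lt h)

end Pool.Agent.Helper96.G4
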