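import Pool.Agent.Helper22.G4.Base
import Pool.Agent.Helper22.G4.GenFam

/-! # G4-S2 (coplanar quadrangle between two pages, linear algebra) -/

namespace Pool.Agent.Helper96.G4

open Pool.Agent.Helper22.G4 Submodule

/-- G4-S2 (coplanar quadrangle between two pages, linear algebra). -/
theorem quad_parallel {b₁ b₂ x₁ x₂ y₁ y₂ : E5} {τ f : E5 →ₗ[ℝ] ℝ} (hb : LinearIndependent ℝ ![b₁, b₂])
    (hτ₁ : τ b₁ = 0) (hτ₂ : τ b₂ = 0) (hx₁ : τ x₁ = 1) (hx₂ : τ x₂ = 1) (hy₁ : τ y₁ = 1)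
    (hy₂ : τ y₂ = 1) (hx : x₂ - x₁ ∈ span ℝ ({b₁, b₂} : Set E5))
    (hy : y₂ - y₁ ∈ span ℝ ({b₁, b₂} : Set E5)) (hxn : x₁ ≠ x₂) (hyn : y₁ ≠ y₂)
    (hf₁ : f b₁ = 0) (hf₂ : f b₂ = 0) (hfx : f x₁ = 0) (hfy : f y₁ ≠ 0)
    (hr : Module.finrank ℝ (span ℝ ({x₁, x₂, y₁, y₂} : Set E5)) ≤ 3) :
    ∃ r : ℝ, r ≠ 0 ∧ y₂ - y₁ = r • (x₂ - x₁) := by
  have hd0 : x₂ - x₁ ≠ 0 := sub_ne_zero.2 hxn.symm
  have he0 : y₂ - y₁ ≠ 0 := sub_ne_zero.2 hyn.symm
  have hfd : f (x₂ - x₁) = 0 := by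
    obtain ⟨a, b, h⟩ := mem_span_pair.1 hx
    rw [← h, map_add, map_smul, map_smul, hf₁, hf₂]; simp
  have hfe : f (y₂ - y₁) = 0 := by
    obtain ⟨a, b, h⟩ := mem_span_pair.1 hy
    rw [← h, map_add, map_smul, map_smul, hf₁, hf₂]; simp
  have hτd : τ (x₂ - x₁) = 0 := by rw [map_sub, hx₂, hx₁, sub_self]
  have hτe : τ (y₂ - y₁) = 0 := by rw [map_sub, hy₂, hy₁, sub_self]
  by_cases h : LinearIndependent ℝ ![x₂ - x₁, y₂ - y₁]
  · exfalso
    have h4 : LinearIndependent ℝ ![x₁, x₂ - x₁, y₁, y₂ - y₁] := by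
      rw [Fintype.linearIndependent_iff]
      intro g hg
      simp only [Fin.sum_univ_four, Matrix.cons_val_zero, Matrix.cons_val_one, Matrix.cons_val] at hg
      have e1 := congrArg f hg
      simp only [map_add, map_smul, hfx, hfd, hfe, smul_eq_mul, mul_zero, zero_add, add_zero,
        map_zero] at e1
      have g2 : g 2 = 0 := by
        rcases mul_eq_zero.1 e1 with h | h
        · exact h
        · exact absurd h hfy
      have e2 := congrArg τ hg
      simp only [map_add, map_smul, hx₁, hτd, hτe, hy₁, smul_eq_mul, mul_zero, add_zero, mul_one,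
        map_zero, g2] at e2
      rw [e2, g2, zero_smul, zero_smul, zero_add, add_zero] at hg
      have e3 := LinearIndependent.pair_iff.1 h _ _ hg
      intro i
      fin_cases i
      · exact e2
      · exact e3.1
      · exact g2
      · exact e3.2
    have hc := finrank_span_eq_card h4
    have hle : span ℝ (Set.range ![x₁, x₂ - x₁, y₁, y₂ - y₁]) ≤
        span ℝ ({x₁, x₂, y₁, y₂} : Set E5) := by
      rw [span_le]
      rintro _ ⟨i, rfl⟩
      have m1 : x₁ ∈ span ℝ ({x₁, x₂, y₁, y₂} : Set E5) := subset_span (by simp)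
      have m2 : x₂ ∈ span ℝ ({x₁, x₂, y₁, y₂} : Set E5) := subset_span (by simp)
      have m3 : y₁ ∈ span ℝ ({x₁, x₂, y₁, y₂} : Set E5) := subset_span (by simp)
      have m4 : y₂ ∈ span ℝ ({x₁, x₂, y₁, y₂} : Set E5) := subset_span (by simp)
      fin_cases i
      · exact m1
      · exact sub_mem m2 m1
      · exact m3
      · exact sub_mem m4 m3
    have := Submodule.finrank_mono hle
    rw [hc, Fintype.card_fin] at this
    omega
  · rw [LinearIndependent.pair_iff' hd0] at h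
    push Not at h
    obtain ⟨a, ha⟩ := h
    refine ⟨a, ?_, ha.symm⟩
    rintro rfl
    rw [zero_smul] at ha
    exact he0 ha.symm

end Pool.Agent.Helper96.G4
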